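import Pool.Agent.Helper93.BK.Egz

set_option autoImplicit false

namespace Pool.Agent.Results.MP_c34ff3_nt.PowersOfTwoOnly

open Pool.Agent.Helper93.BK

/-- Let `n ≥ 1`, `r ≥ 4` and `a ≥ 0`, and let `egz` be the Erdős–Ginzburg–Ziv constant `s`.  If
`n` is a power of two, then `s(C_{2^a n}^r) = 2^r (2^a n - 1) + 1`.  If `n` is not a power of
two, then `s(C_{2^a n}^r) ≥ 2^r (2^a n - 1) + 1 + 2^(r-4)`; so the equality asked for in Q1
fails for every `a`. -/
theorem result (n r a : ℕ) (hn : 0 < n) (hr : 4 ≤ r) :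
    ((∃ k, n = 2 ^ k) →
      egz (Fin r → ZMod (2 ^ a * n)) = 2 ^ r * (2 ^ a * n - 1) + 1) ∧
    ((¬ ∃ k, n = 2 ^ k) →
      2 ^ r * (2 ^ a * n - 1) + 1 + 2 ^ (r - 4) ≤ egz (Fin r → ZMod (2 ^ a * n))) := by
  constructor
  · rintro ⟨k, rfl⟩
    rw [← pow_add]
    exact egz_two_pow r (a + k) (by omega)
  · intro h
    obtain ⟨t, M, ht, hM, rfl⟩ := exists_odd n hn h
    have h1 : 2 ^ a * ((2 * t + 1) * M) = (2 * t + 1) * (2 ^ a * M) := by ring
    rw [h1]
    have h2 := lt_egz_of_free (N := (2 * t + 1) * (2 ^ a * M)) (by positivity) (by omega)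
      (exists_free' t (2 ^ a * M) r ht (Nat.mul_pos (by positivity) hM) hr)
    omega

end Pool.Agent.Results.MP_c34ff3_nt.PowersOfTwoOnly
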